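import Pool.Agent.Lib.ALL_h81.Stmt
import Pool.Agent.Lib.ALL52.Final

/-!
# Log uniformization of valuations of rank one on quasi-excellent schemes of characteristic `p`,
# for `p` large with respect to the dimension
-/

open Pool.Agent.LU2G Pool.Agent.LUF

/-- Let `A` be a noetherian integral domain of characteristic `p > 0`, `V ⊇ A` a valuation ring of
rank one of the field of fractions `K` of `A`. Let `X' → X` be a blowing up of `X = Spec A`, in an
ideal `I ≠ 0` (for example `X' = X`, `I = A`, `g = 1`), and `R` the local ring of `X'` at the center
of the lift of `V`: this is `centerRing V (chart I g)`, for `g ∈ I` of least value. Let `R^` be the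
completion of `R` and `H` its implicit prime ideal, the ideal of the elements of infinite value.
Assume that
* the residue field of `R` is generated by an algebraically closed field `k` and by a finite set,
  and it has transcendence degree `c` over `k`;
* the generic formal fibre is regular: the localizations of `R^` at the prime ideals `Q` with
  `Q ∩ R = 0` are regular (by definition, this holds if `X` is quasi-excellent);
* `(N + 1) * 2 ^ (3 * N - 1) * (N!) ^ 2 < p`, where `N = n + c` and `n = dim R^ / H`.
Then `V` is log uniformizable: for every closed subset `V(D) ≠ X` of `X` and every blowing up of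
`X`, in an ideal `J ≠ 0`, there is a blowing up that dominates it, in an ideal `J * I' ≠ 0`, such
that its local ring at the center of the lift of `V` is regular, and the inverse image of
`V(D) ∪ V(J * I')` is a strict normal crossings divisor there. -/
theorem Pool.Agent.Results.MP_5b7a2c_ag.FormalAllDefects.result (p : ℕ) [Fact p.Prime]
    (A : Type) [CommRing A] [IsDomain A] [IsNoetherianRing A] [CharP A p]
    (V : ValuationSubring (FractionRing A)) (hV : ∀ a : A, algebraMap A (FractionRing A) a ∈ V)
    (hrank1 : IsCoatom V)
    (I : Ideal A) (g : A) (hg : g ∈ I) (hg0 : g ≠ 0)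
    (hgmin : ∀ a ∈ I, V.valuation (algebraMap A (FractionRing A) a) ≤
      V.valuation (algebraMap A (FractionRing A) g))
    (R : Subalgebra A (FractionRing A)) (hR : R = centerRing V (chart I g))
    (c : ℕ) (hresidue : ClosedGenerated (centerField R V) c)
    (hregular : RegularFormalFibre R V) (n : ℕ) (hdim : formalDim R V = n)
    (hp : (n + c + 1) * 2 ^ (3 * (n + c) - 1) * (n + c).factorial ^ 2 < p) :
    LogUniformizable V :=
  Pool.Agent.ALLh81.logUniformizable_all Pool.Agent.ALLF.dimBound_mono p Fact.out
    (fun k _ _ _ => Pool.Agent.ALLF.realCaseFull_large p k)
    A V hV hrank1 I g hg hg0 hgmin R hR c hresidue hregular n hdim hp
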