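import Pool.Agent.Lib.LUZ.Stmt
import Pool.Agent.Lib.TWF.FZ3
import Pool.Agent.Lib.TWD.AllV
import Pool.Agent.Lib.TWF.Four

/-!
# Log uniformization of valuations of rank one on quasi-excellent schemes of any dimension
-/

open Pool.Agent.LU2G Pool.Agent.LUF

/-- Let `A` be a noetherian integral domain, `V ⊇ A` a valuation ring of rank one of the field of
fractions `K` of `A`, whose residue field has characteristic `p > 0`. Let `X' → X` be a blowing up
of `X = Spec A`, in an ideal `I ≠ 0` (for example `X' = X`, `I = A`, `g = 1`), and `R` the local
ring of `X'` at the center of the lift of `V`: this is `centerRing V (chart I g)`, for `g ∈ I` of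
least value. Let `R^` be the completion of `R` and `H` its implicit prime ideal, the ideal of the
elements of infinite value, and `r` the rational rank of `V`. Assume that the generic formal fibre
is regular: the localizations of `R^` at the prime ideals `Q` with `Q ∩ R = 0` are regular (by
definition, this holds if `X` is quasi-excellent). Assume moreover that
* the residue field of `R` is generated by a perfect field `k` and by a finite set, `dim R^ / H` is
  at most `r`, plus the transcendence degree of the residue field of `V` over the residue field of
  `R`, plus one, and, if `K` has characteristic zero, the residue field of `V` is algebraic over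
  `k`; or
* `K` has characteristic `p`, the residue field of `R` is algebraically closed, the residue field of
  `V` is algebraic over it (so it is the residue field of `R`), and `dim R^ / H` is at most `4`, or
  at most `r + 2`, or at most `r + 3` and the `p`-multiples have index `p ^ r` in the value group of
  `V`.
Then `V` is log uniformizable: for every closed subset `V(D) ≠ X` of `X` and every blowing up of
`X`, in an ideal `J ≠ 0`, there is a blowing up that dominates it, in an ideal `J * I' ≠ 0`, such
that its local ring at the center of the lift of `V` is regular, and the inverse image of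
`V(D) ∪ V(J * I')` is a strict normal crossings divisor there. -/
theorem Pool.Agent.Results.MP_5b7a2c_ag.FormalSmallDefects.result (p : ℕ) [Fact p.Prime]
    (A : Type) [CommRing A] [IsDomain A] [IsNoetherianRing A]
    (V : ValuationSubring (FractionRing A)) (hV : ∀ a : A, algebraMap A (FractionRing A) a ∈ V)
    (hrank1 : IsCoatom V) (hp : V.valuation (p : FractionRing A) < 1)
    (I : Ideal A) (g : A) (hg : g ∈ I) (hg0 : g ≠ 0)
    (hgmin : ∀ a ∈ I, V.valuation (algebraMap A (FractionRing A) a) ≤
      V.valuation (algebraMap A (FractionRing A) g))
    (R : Subalgebra A (FractionRing A)) (hR : R = centerRing V (chart I g))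
    (hregular : RegularFormalFibre R V)
    (n : ℕ) (hdim : formalDim R V = n)
    (hdefect :
      (PerfectlyGenerated (centerField R V) ((p : A) ≠ 0) ∧
        (n : Cardinal) ≤ compRank V ⊤ + centerDegree R V + 1) ∨
      ((p : A) = 0 ∧ IsAlgClosed (centerField R V) ∧ centerDegree R V = 0 ∧
        (n ≤ 4 ∨ (n : Cardinal) ≤ compRank V ⊤ + 2 ∨
          ∃ r : ℕ, compRank V ⊤ = r ∧ n ≤ r + 3 ∧ Pool.Agent.TW.compIndex p V ⊤ = p ^ r))) :
    LogUniformizable V := by
  rcases hdefect with ⟨hresidue, hdefect⟩ | ⟨hpA, hclosed, hzero, hfour | hdefect | ⟨r, hr, hn, hi⟩⟩
  · exact Pool.Agent.LUZ.logUniformizable_stmt p Fact.out A V hV hrank1 hp I g hg hg0 hgmin R hR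
      hresidue hregular n hdim hdefect
  · exact Pool.Agent.TWF.logUniformizable_stmtz p Fact.out A V hV hrank1 hpA I g hg hg0 hgmin R hR
      hclosed hzero hregular n hdim (δ := 4) (N := 4)
      ((Nat.cast_le.2 hfour).trans (self_le_add_left _ _)) hfour (Pool.Agent.TWF.bba_four p)
  · exact Pool.Agent.TWF.logUniformizable_stmtz p Fact.out A V hV hrank1 hpA I g hg hg0 hgmin R hR
      hclosed hzero hregular n hdim (δ := 2) (N := n) (by exact_mod_cast hdefect) le_rfl
      (Pool.Agent.TWF.bba_two p n)
  · exact Pool.Agent.TWD.logUniformizable_formalV p (Pool.Agent.TWD.leafV p) A V hV hrank1 hpA I g hg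
      hg0 hgmin R hR hclosed hzero hregular n hdim r hn hr hi
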