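import Pool.Agent.Lib.TWD.HRF

/-!
# Henselian rationality of the real zero-dimensional valuations, and reduction of log
uniformization to rational function fields
-/

open Pool.Agent.LU2G Pool.Agent.TW

/-- Let `k` be an algebraically closed field of characteristic `p`, let `X = Spec A` be an integral
affine scheme essentially of finite type over `k`, let `K` be the field of fractions of `A`, of
transcendence degree `n` over `k`, and let `V ⊇ A` be a valuation ring of `K` of rank one whose
residue field is `k`. There are `z_1, ..., z_n ∈ K` of positive value, algebraically independent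
over `k`, such that, with `F = k(z_1, ..., z_n)`:

* `K` is a finite separable extension of `F`, and `V` and `V ∩ F` have the same value group;
* the local degree of `K / F` at `V` is a power of `p` that is at most `2 ^ n * n!`: there is an
  extension `W` of `V` to an algebraic closure `Ω` of `K`, such that for all finite Galois
  extensions `N` of `F` in `Ω` that contain `K` the index of `D ∩ Gal(N / K)` in `D` is such a
  power, where `D` is the decomposition group of `W ∩ N` in `Gal(N / F)`;
* if `2 ^ n * n! < p`, or if `n ≤ 4`, or if `n ≤ r + 2`, or if `n ≤ r + 3` and the `p`-th powers have index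
  `p ^ r` in `G`, where `r` is the rational rank of the value group `G` of `V`, then `F` is dense in
  `K` for the topology defined by `V`, and, if the valuation ring `V ∩ F` of the rational function
  field `F` is log uniformizable (for all affine models of `F`), then `V` is log uniformizable: for
  every closed subset `V(D) ≠ X` and every blowing up of `X`, in an ideal `J ≠ 0`, there is a
  blowing up that dominates it, in an ideal `J * I ≠ 0`, such that its local ring at the center of
  the lift of `V` is regular, and the inverse image of `V(D) ∪ V(J * I)` is a strict normal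
  crossings divisor there. -/
theorem Pool.Agent.Results.MP_5b7a2c_ag.HenselianRationality.result (p : ℕ) [Fact p.Prime]
    (k : Type) [Field k] [IsAlgClosed k] [CharP k p]
    (A : Type) [CommRing A] [IsDomain A] [Algebra k A] [Algebra.EssFiniteType k A]
    (n : ℕ) (hn : Algebra.trdeg k (FractionRing A) = n)
    (V : ValuationSubring (FractionRing A)) (hV : ∀ a : A, algebraMap A (FractionRing A) a ∈ V)
    (hV₁ : V ≠ ⊤ ∧ ∀ U : ValuationSubring (FractionRing A), V ≤ U → U = V ∨ U = ⊤)
    (hres : ∀ f ∈ V, ∃ c : k, V.valuation (f - algebraMap k (FractionRing A) c) < 1) :
    ∃ z : Fin n → FractionRing A, AlgebraicIndependent k z ∧ (∀ i, V.valuation (z i) < 1) ∧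
      FiniteDimensional (IntermediateField.adjoin k (Set.range z)) (FractionRing A) ∧
      Algebra.IsSeparable (IntermediateField.adjoin k (Set.range z)) (FractionRing A) ∧
      (∀ a : FractionRing A, ∃ c ∈ IntermediateField.adjoin k (Set.range z),
        V.valuation c = V.valuation a) ∧
      (∃ W : ValuationSubring (AlgebraicClosure (FractionRing A)),
        W.comap (algebraMap (FractionRing A) (AlgebraicClosure (FractionRing A))) = V ∧
        ∀ F : IntermediateField k (AlgebraicClosure (FractionRing A)),
          F = IntermediateField.adjoin k (Set.range fun i =>
            algebraMap (FractionRing A) (AlgebraicClosure (FractionRing A)) (z i)) →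
          ∀ (N : IntermediateField F (AlgebraicClosure (FractionRing A)))
            [FiniteDimensional F N] [IsGalois F N],
            (∀ a : FractionRing A,
              algebraMap (FractionRing A) (AlgebraicClosure (FractionRing A)) a ∈ N) →
            ∃ ν : ℕ, p ^ ν ≤ 2 ^ n * n.factorial ∧
              (fixingSubgroup (N ≃ₐ[F] N) {x : N | (x : AlgebraicClosure (FractionRing A)) ∈
                Set.range (algebraMap (FractionRing A)
                  (AlgebraicClosure (FractionRing A)))}).relIndex
                    ((W.comap (algebraMap N
                      (AlgebraicClosure (FractionRing A)))).decompositionSubgroup F) = p ^ ν) ∧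
      (2 ^ n * n.factorial < p ∨ n ≤ 4 ∨ (n : Cardinal) ≤ compRank V ⊤ + 2 ∨
        (∃ r : ℕ, compRank V ⊤ = r ∧ compIndex p V ⊤ = p ^ r ∧ n ≤ r + 3) →
        (∀ a b : FractionRing A, b ≠ 0 → ∃ c ∈ IntermediateField.adjoin k (Set.range z),
          V.valuation (a - c) < V.valuation b) ∧
        (Pool.Agent.LU2.LU k (V.comap (algebraMap (IntermediateField.adjoin k (Set.range z))
          (FractionRing A))) → LogUniformizable V)) := by
  classical
  have h1 : Algebra.EssFiniteType A (FractionRing A) :=
    Algebra.EssFiniteType.of_isLocalization _ (nonZeroDivisors A)
  have h2 : Algebra.EssFiniteType k (FractionRing A) :=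
    Algebra.EssFiniteType.comp k A (FractionRing A)
  have hKtop : (⊤ : IntermediateField k (FractionRing A)).FG := IntermediateField.fg_top_iff.2 h2
  have hkV : ∀ c : k, algebraMap k (FractionRing A) c ∈ V := by
    intro c
    rw [IsScalarTower.algebraMap_apply k A (FractionRing A)]
    exact hV _
  obtain ⟨z, hz, hz1, hfd, hsep, hval, hW, hdense⟩ :=
    Pool.Agent.HRD.exists_rationalF p hKtop V hkV hV₁ hres hn
  refine ⟨z, hz, hz1, hfd, hsep, hval, hW, fun hp => ⟨hdense hp, fun hLU => ?_⟩⟩
  exact Pool.Agent.D2.HR.logUniformizable_of_dense A V hV z (hdense hp) hLU
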