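import Pool.Agent.Lib.TW.Small

/-!
# Log uniformization of the valuations all of whose rank one components are small
-/

open Pool.Agent.LU2G Pool.Agent.TW

/-- Let `k` be an algebraically closed field of characteristic `p`, let `X = Spec A` be an integral
affine scheme essentially of finite type over `k`, and let `V` be a valuation ring, of any rank, of
the field of fractions `K` of `A` that contains `A`. Assume that the transcendence degree `n` of `K`
over `k` satisfies `(n + 1) * 2 ^ (3 * n - 1) * (n!) ^ 2 < p`, or that `K` contains a finitely
generated extension `F` of `k`, dense in `K` for the topology defined by `V`, such that `K` is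
separably generated over `F` (for example `F = K`), and the rank one components of the valuation
ring `V ∩ F` of `F` are small: see `SmallDefectComponents`. A component, of dimension `d`, residue
degree `q` and rational rank `r`, is small if
* `d ≤ q + r + 1`; or
* `q = 0`, and `d ≤ 4`, or `d ≤ r + 2`, or `d ≤ r + 3` and the `p`-multiples have index `p ^ r` in
  the value group of the component; or
* `(d + 1) * 2 ^ (3 * d - 1) * (d!) ^ 2 < p`; or
* it is approximable: see `ApprComponent`.
Then `V` is log uniformizable: for every closed subset `V(D) ≠ X` and every blowing up of `X`, in an
ideal `J ≠ 0`, there is a blowing up that dominates it, in an ideal `J * I ≠ 0`, such that its local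
ring at the center of the lift of `V` is regular, and the inverse image of `V(D) ∪ V(J * I)` is a
strict normal crossings divisor there. -/
theorem Pool.Agent.Results.MP_5b7a2c_ag.SmallDefects.result (p : ℕ) [Fact p.Prime]
    (k : Type) [Field k] [IsAlgClosed k] [CharP k p]
    (A : Type) [CommRing A] [IsDomain A] [Algebra k A] [Algebra.EssFiniteType k A]
    (V : ValuationSubring (FractionRing A)) (hV : ∀ a : A, algebraMap A (FractionRing A) a ∈ V)
    (h : (∃ n : ℕ, Algebra.trdeg k (FractionRing A) = n ∧
        (n + 1) * 2 ^ (3 * n - 1) * n.factorial ^ 2 < p) ∨
      ∃ F : IntermediateField k (FractionRing A), F.FG ∧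
        (∀ a b : FractionRing A, b ≠ 0 → ∃ c ∈ F, V.valuation (a - c) < V.valuation b) ∧
        (∃ s : Finset (FractionRing A),
          AlgebraicIndependent F (Subtype.val : s → FractionRing A) ∧
          Algebra.IsSeparable (IntermediateField.adjoin F (s : Set (FractionRing A)))
            (FractionRing A)) ∧
        SmallDefectComponents p (algebraMap k F) (V.comap (algebraMap F (FractionRing A)))) :
    LogUniformizable V :=
  logUniformizable_small p k A V hV h
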